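import Pool.Agent.R921.WR5

/-!
# A wild linear quotient whose stringy motive is not a finite sum of `{Z} / (L^a - 1)`

`K` is an algebraic closure of `𝔽₃`, `G = (ℤ/3)³`, and `G` acts on `K^{48}`, as `8` copies of
`K³ × K³`, by `(x, y) ↦ (x, (y₀ + g₀ x₀, y₁ + g₁ x₁, y₂ + g₂ x₂))` (the matrices `repD 8 g`). So
`K^{48} / G` is the product of three copies of `K^{16} / (ℤ/3)`, where `ℤ/3` acts on `K^{16}` as the
direct sum of `8` Jordan blocks of size `2`.

By Yasuda's formula the stringy motive of `K^{48} / G` is `∑_a {v⁻¹(a)} L^{48 - a}`, `a ∈ (1/27)ℤ`.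
The `G`-torsors over `Spec K((t))` are parametrised by `ℕ →₀ K` (Artin-Schreier theory: `fser`),
`v27D 8 F` is `27 v(F)` (computed from the ring of integers of the torsor algebra and the tuning
module), and `stringyD 8 n` is the sum of the terms with `a ≤ n / 27`.

The stringy motive is finite, but it is not a finite sum `∑ {Z_i} / (L^{a_i} - 1)` with varieties
`Z_i` and positive `a_i ∈ (1/27)ℤ`, as asked in the problem; not even with arbitrary elements of the
Grothendieck ring with `L^{1/27}` and its inverse adjoined instead of the classes `{Z_i}`, and not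
even if universally homeomorphic varieties are identified.

Idea: the count of the points over the field with `q` elements gives
`q^{42} ((q^8 - 1) / (q^6 - 1))^3` for the stringy motive, and `q^4 + q^2 + 1` divides the
denominator three times, but it cannot divide a number `q^{A/27} - 1` (`A` fixed, `q` large) twice.
-/

namespace Pool.Agent.Results.MP_75199a_ag.NotWeaklyRational

open Pool.Agent.Helper449.MST Pool.Agent.R921

/-- The action of `G = (ℤ/3)³` on `K^{48}` is linear and faithful, and the fixed locus of every
`g ≠ 0` has codimension at least `8`: there is no pseudo-reflection. -/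
def ActionOk : Prop :=
  Fintype.card (Idx 8) = 48 ∧ (∀ g h, repD 8 (g + h) = repD 8 g * repD 8 h) ∧
    Function.Injective (repD 8) ∧ ∀ g, g ≠ 0 → 8 ≤ (repD 8 g - 1).rank

/-- Every class of `(K((t)) / ℘ K((t)))³`, `℘ h = h³ - h`, that is every `G`-torsor over
`Spec K((t))`, is that of exactly one `F`. -/
def TorsorsOk : Prop :=
  ∀ f : Fin 3 → LaurentSeries K, ∃! F : ℕ →₀ K, ∃ h : Fin 3 → LaurentSeries K,
    ∀ l, f l - fser F l = h l ^ 3 - h l

/-- `v` is finite, and all torsors with `v = b / 27` lie in the space `K^b` in which the level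
set `levelYD 8 b` is taken. -/
def LevelsOk : Prop :=
  ∀ F, v27D 8 F ≠ ⊤ ∧ ∀ b : ℕ, v27D 8 F = b → ∀ i, b ≤ i → F i = 0

theorem result : ActionOk ∧ TorsorsOk ∧ LevelsOk ∧
    -- the stringy motive is finite,
    ConvergesMod relSub (stringyD 8) ∧
    -- it is not a finite sum `∑ z_i / (L^{a_i} - 1)`,
    ¬ WeaklyRationalMod relSub (stringyD 8) ∧
    -- not even if universally homeomorphic varieties are identified.
    ¬ WeaklyRationalMod relSubUH (stringyD 8) := by
  refine ⟨⟨by simp [Fintype.card_prod, Fintype.card_sum], repD_add 8,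
    repD_injective 8 (by norm_num), fun g hg => repD_rank 8 g hg⟩, torsor_param, ?_,
    stringyD_converges, ?_, not_weaklyRational⟩
  · intro F
    refine ⟨?_, fun b hb i hi => support_YD F b hb i hi⟩
    rw [v27D_eq]
    exact ENat.coe_ne_top _
  · intro h
    exact not_weaklyRational (weaklyRationalMod_mono relSub_le _ h)

end Pool.Agent.Results.MP_75199a_ag.NotWeaklyRational
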